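import Pool.Agent.MP_96f5a9_co.h16.IISpec2

/-!
Almost equal generators: the gain of the flow at a point.
-/

set_option autoImplicit false

namespace Pool.Agent.MP_96f5a9_co.H58

open Finset H51 H59 H80 WA H16

variable {ι : Type} [Fintype ι] [DecidableEq ι]

lemma bt_bounds {m L : ℕ} {ξ : ℝ} (hm : 0 < m) (hξ : ξ ≤ 1) (x : ℕ) :
    0 ≤ bt m L ξ x ∧ bt m L ξ x ≤ m * (1 - ξ) := by
  unfold bt
  have h0 : (0 : ℝ) ≤ m * (1 - ξ) := mul_nonneg (by positivity) (by linarith)
  split_ifs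
  · exact ⟨le_rfl, h0⟩
  · have h1 : ((x % m : ℕ) : ℝ) ≤ m := by exact_mod_cast (Nat.mod_lt x hm).le
    have h2 : 0 ≤ ((m : ℝ) - (x % m : ℕ)) / L := div_nonneg (by linarith) (by positivity)
    exact ⟨mul_nonneg h0 (le_max_right _ _),
      mul_le_of_le_one_right h0 (max_le (by linarith) zero_le_one)⟩

lemma bt_zero {m L : ℕ} {ξ : ℝ} {x : ℕ} (hL : 0 < L) (hL4 : 4 * L ≤ m) (h1 : m ≤ x)
    (h2 : 4 * x < 7 * m) : bt m L ξ x = 0 := by
  unfold bt
  rw [if_neg (by omega)]
  have e : x % m = x - m := by rw [Nat.mod_eq_sub_mod h1, Nat.mod_eq_of_lt (by omega)]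
  have : 1 - ((m : ℝ) - (x % m : ℕ)) / L ≤ 0 := by
    rw [sub_nonpos, le_div_iff₀ (by exact_mod_cast hL), e, Nat.cast_sub h1]
    have a1 : (4 : ℝ) * L ≤ m := by exact_mod_cast hL4
    have a2 : (4 : ℝ) * x < 7 * m := by exact_mod_cast h2
    linarith
  rw [max_eq_right this, mul_zero]

lemma fl_ge {m x k : ℕ} (hm : 0 < m) (h : k * m ≤ x) : (k : ℝ) * m ≤ fl m x := by
  unfold fl
  have : k ≤ x / m := (Nat.le_div_iff_mul_le hm).2 h
  have h2 : (k : ℝ) ≤ (x / m : ℕ) := by exact_mod_cast this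
  have h3 : (0 : ℝ) ≤ m := by positivity
  nlinarith

lemma le_fl {m : ℕ} (hm : 0 < m) (x : ℕ) : (x : ℝ) ≤ fl m x + m := by
  unfold fl
  have h1 := Nat.div_add_mod x m
  have h2 := Nat.mod_lt x hm
  exact_mod_cast (show x ≤ m * (x / m) + m by omega)

variable {g γ : ι → ℕ} {C : Finset ι} {M m L : ℕ} {gb ξ : ℝ} {Fr : ι → ℕ → ℝ} {y : ι → ℕ}

lemma ff_in (hm : 0 < m) {i : ι} (hi : i ∈ C) : m * ff g γ C M m L gb ξ Fr y i =
    g i / gb * BB C m Fr (M - wt g y) + bt m L ξ (M - wt g y) * hh C γ y i := by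
  have h0 : (m : ℝ) ≠ 0 := by positivity
  rw [ff, if_pos hi, mul_div_cancel₀ _ h0]

lemma ff_out (hm : 0 < m) {i : ι} (hi : i ∈ Cᶜ) : m * ff g γ C M m L gb ξ Fr y i =
    Fr i (M - wt g y) := by
  have h0 : (m : ℝ) ≠ 0 := by positivity
  rw [ff, if_neg (mem_compl.1 hi), mul_div_cancel₀ _ h0]

/-- The unused supply. -/
lemma slk_eq (hm : 0 < m) (hg : 0 < gb) (hC : C.Nonempty)
    (he : gb * C.card = ∑ k ∈ C, (g k : ℝ)) :
    m * slk g M m (ff g γ C M m L gb ξ Fr) y = -(bt m L ξ (M - wt g y) * ∑ k ∈ C, hh C γ y k) := by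
  have hc : (0 : ℝ) < C.card := by exact_mod_cast hC.card_pos
  have hp : (Fintype.card ι : ℝ) = C.card + Cᶜ.card := by
    exact_mod_cast (card_add_card_compl C).symm
  have h1 : ∑ i ∈ C, (g i : ℝ) / gb * BB C m Fr (M - wt g y) = C.card * BB C m Fr (M - wt g y) := by
    rw [← sum_mul, ← sum_div, ← he, mul_div_cancel_left₀ _ hg.ne']
  have h2 : C.card * BB C m Fr (M - wt g y) = C.card * fl m (M - wt g y) +
      (Cᶜ.card * fl m (M - wt g y) - ∑ i ∈ Cᶜ, Fr i (M - wt g y)) := by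
    rw [BB, mul_add, mul_div_cancel₀ _ hc.ne']
  have h3 : (m : ℝ) * aa g M m y = fl m (M - wt g y) := rfl
  rw [slk, mul_sub, mul_sum, ← sum_add_sum_compl C, sum_congr rfl fun i hi => ff_in hm hi,
    sum_congr rfl fun i hi => ff_out hm hi, sum_add_distrib, h1, h2, ← mul_sum, hp,
    mul_left_comm, h3]
  ring

/-- The blocked flow dominates the flow on any set of blocked edges. -/
lemma ded_ge {T : Finset (ι → ℕ)} {f : (ι → ℕ) → ι → ℝ} (h0 : ∀ i, 0 ≤ f y i) {D : Finset ι}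
    (hD : ∀ i ∈ D, y + ee i ∉ T) : ∑ i ∈ D, f y i ≤ ded T f y := by
  unfold ded
  calc _ ≤ ∑ i ∈ D, ((y i : ℝ) + 1) * f y i := sum_le_sum fun i _ =>
        le_mul_of_one_le_left (h0 i) (le_add_of_nonneg_left (by positivity))
    _ ≤ _ := sum_le_sum_of_subset_of_nonneg (fun i hi => mem_filter.2 ⟨mem_univ _, hD i hi⟩)
        fun i _ _ => mul_nonneg (by positivity) (h0 i)

theorem nodeG : NodeGStmt := by
  intro ι _ _ g γ T m F s R R0 t w gb ε N q Fr r qh err h y _
  have hm := h.md.pos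
  have hmR : (0 : ℝ) < m := by exact_mod_cast hm
  have hg := h.ref.pos
  have hc : (0 : ℝ) < (Nr g s R).card := by exact_mod_cast h.ne.card_pos
  have hε : 0 ≤ ε := by
    refine le_of_mul_le_mul_right ?_ hc
    rw [h.eps, zero_mul]
    positivity
  have hR0 : (0 : ℝ) ≤ 2 * R / m := by positivity
  have hR8 : (2 * R / m : ℝ) ≤ 1 / 8 := by
    rw [div_le_iff₀ hmR]
    linarith [h.ref.Rm']
  have hε' := h.eps_le
  have hslk := slk_eq (γ := γ) (M := F + m) (L := 3 * R * t ^ 2) (ξ := 9 * ε + 2 * R / m)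
    (Fr := Fr) (y := y) hm hg h.ne h.gb_eq
  have hin := fun i => ff_in (g := g) (γ := γ) (C := Nr g s R) (M := F + m) (L := 3 * R * t ^ 2)
    (gb := gb) (ξ := 9 * ε + 2 * R / m) (Fr := Fr) (y := y) (i := i) hm
  have hout := fun i => ff_out (g := g) (γ := γ) (C := Nr g s R) (M := F + m) (L := 3 * R * t ^ 2)
    (gb := gb) (ξ := 9 * ε + 2 * R / m) (Fr := Fr) (y := y) (i := i) hm
  obtain ⟨hb0, hb1⟩ := bt_bounds (L := 3 * R * t ^ 2) (ξ := 9 * ε + 2 * R / m) hm (by linarith)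
    (F + m - wt g y)
  have hz := bt_zero (m := m) (L := 3 * R * t ^ 2) (ξ := 9 * ε + 2 * R / m) (x := F + m - wt g y)
    (by have := h.ref.R1; have := h.t1; positivity) h.L_le
  have hlow : F + m - wt g y < m → bt m (3 * R * t ^ 2) (9 * ε + 2 * R / m) (F + m - wt g y) = 0 :=
    fun e => by rw [bt, if_pos e]
  generalize ff g γ (Nr g s R) (F + m) m (3 * R * t ^ 2) gb (9 * ε + 2 * R / m) Fr = f at *
  generalize bt m (3 * R * t ^ 2) (9 * ε + 2 * R / m) (F + m - wt g y) = β at *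
  generalize hx : F + m - wt g y = x at *
  have hs0 : 0 ≤ slk g (F + m) m f y := by
    refine le_of_mul_le_mul_left ?_ hmR
    rw [hslk, mul_zero, neg_nonneg]
    exact mul_nonpos_of_nonneg_of_nonpos hb0 (h.hh2 y)
  rcases Nat.lt_or_ge x m with hxm | hxm
  · have hfl : fl m x = 0 := by simp [fl, Nat.div_eq_of_lt hxm]
    have hB : BB (Nr g s R) m Fr x = 0 := by
      rw [BB, hfl, sum_eq_zero fun i hi => h.rare.zero i hi x hxm]
      simp
    have h0 : ∀ i, 0 ≤ f y i := fun i => by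
      refine le_of_mul_le_mul_left ?_ hmR
      by_cases hi : i ∈ Nr g s R
      · rw [hin i hi, hB, hlow hxm]
        simp
      · rw [hout i (mem_compl.2 hi), h.rare.zero i (mem_compl.2 hi) x hxm, mul_zero]
    have hd := ded_ge (T := T) h0 (D := ∅) (by simp)
    rw [sum_empty] at hd
    rw [Nat.div_eq_of_lt hxm, filter_false_of_mem fun i _ hi => by
      have := hi.2
      unfold Pr at this
      omega]
    simp only [zero_mul, Nat.cast_zero, card_empty]
    constructor <;> linarith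
  have hf1 : (m : ℝ) ≤ fl m x := by simpa using fl_ge (k := 1) hm (by omega)
  have hf2 := le_fl hm x
  have hf3 := fl_le m x
  have hnear : ∀ i ∈ (Nr g s R)ᶜ, |fl m x - Fr i x| ≤ 8 * fl m x := fun i hi => by
    have a1 := abs_le.1 (h.rare.near i hi x hxm)
    have a2 : 3 * (m : ℝ) * x / gb ≤ 3 * x := by
      rw [div_le_iff₀ hg]
      have : (0 : ℝ) ≤ x := by positivity
      nlinarith [h.ref.gbm]
    rw [abs_le]
    constructor <;> linarith [a1.1, a1.2]
  have hB : |BB (Nr g s R) m Fr x - fl m x| ≤ 8 * ε * fl m x := by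
    have a1 : ((Nr g s R)ᶜ.card : ℝ) * fl m x - ∑ i ∈ (Nr g s R)ᶜ, Fr i x =
        ∑ i ∈ (Nr g s R)ᶜ, (fl m x - Fr i x) := by
      rw [sum_sub_distrib, sum_const, nsmul_eq_mul]
    have a2 := (abs_sum_le_sum_abs _ _).trans (sum_le_card_nsmul _ _ _ hnear)
    rw [BB, add_sub_cancel_left, a1, abs_div, abs_of_pos hc, div_le_iff₀ hc]
    rw [nsmul_eq_mul, ← h.eps] at a2
    linarith
  obtain ⟨hB1, hB2⟩ := abs_le.1 hB
  have hcore : ∀ i ∈ Nr g s R, (1 - (9 * ε + 2 * R / m)) * fl m x ≤ g i / gb * BB (Nr g s R) m Fr x ∧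
      g i / gb * BB (Nr g s R) m Fr x ≤ 2 * fl m x := fun i hi => by
    obtain ⟨a1, a2⟩ := (mem_filter.1 hi).2
    have b1 : (g i : ℝ) ≤ s + R := by exact_mod_cast a1
    have b2 : (s : ℝ) ≤ g i + R := by exact_mod_cast a2
    have b3 : (2 * R : ℝ) ≤ 2 * R / m * gb := by
      rw [div_mul_eq_mul_div, le_div_iff₀ hmR]
      exact mul_le_mul_of_nonneg_left h.ref.gbm (by positivity)
    have c1 : 1 - 2 * R / m ≤ (g i : ℝ) / gb := by
      rw [le_div_iff₀ hg]
      linarith [h.ref.gb2]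
    have c2 : (g i : ℝ) / gb ≤ 1 + 2 * R / m := by
      rw [div_le_iff₀ hg]
      linarith [h.ref.gb1]
    have c3 : 0 ≤ ε * fl m x := mul_nonneg hε (by linarith)
    have c4 : 72 * ε * fl m x ≤ 1 * fl m x := mul_le_mul_of_nonneg_right hε' (by linarith)
    have c5 : 0 ≤ BB (Nr g s R) m Fr x := by linarith
    constructor
    · have d1 := mul_le_mul_of_nonneg_right c1 c5
      have d2 := mul_le_mul_of_nonneg_left hB1 (show 0 ≤ 1 - 2 * (R : ℝ) / m by linarith)
      have d3 := mul_nonneg hR0 c3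
      nlinarith
    · have d1 := mul_le_mul_of_nonneg_right (c2.trans (show _ ≤ (9 / 8 : ℝ) by linarith)) c5
      linarith
  have hξ : ∀ u : ℝ, 0 ≤ u → 3 / 4 * u ≤ (1 - (9 * ε + 2 * R / m)) * u := fun u hu =>
    mul_le_mul_of_nonneg_right (by linarith) hu
  have hβm : β ≤ m := hb1.trans (mul_le_of_le_one_right hmR.le (by linarith))
  have hβ : ∀ i, -β ≤ β * hh (Nr g s R) γ y i ∧ β * hh (Nr g s R) γ y i ≤ β := fun i => by
    obtain ⟨a1, a2⟩ := h.hh1 y i
    constructor <;> nlinarith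
  have hlo : ∀ i ∈ Nr g s R, 3 / 4 * (fl m x - m) ≤ m * f y i := fun i hi => by
    have := hξ (fl m x - m) (by linarith)
    rw [hin i hi]
    linarith [(hcore i hi).1, (hβ i).1]
  have h0 : ∀ i, 0 ≤ f y i := fun i => by
    refine le_of_mul_le_mul_left ?_ hmR
    by_cases hi : i ∈ Nr g s R
    · linarith [hlo i hi]
    · rw [hout i (mem_compl.2 hi), mul_zero]
      exact h.rare.nonneg i (mem_compl.2 hi) x
  constructor
  · have hI : Nr g s R0 ⊆ Nr g s R := fun i hi => by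
      have := (mem_filter.1 hi).2
      have := h.R0_le
      exact mem_filter.2 ⟨mem_univ _, by omega⟩
    have hd := ded_ge (T := T) h0 (D := (Nr g s R0).filter fun i => ¬ y + ee i ∈ T)
      fun i hi => (mem_filter.1 hi).2
    rcases Nat.lt_or_ge (Fintype.card ι) (8 * live T (Nr g s R0) y) with e | e
    · rw [Nat.sub_eq_zero_of_le e.le, mul_zero, Nat.cast_zero]
      have := (sum_nonneg fun i _ => h0 i).trans hd
      linarith
    have a1 := sum_filter_add_sum_filter_not (Nr g s R0) (fun i => y + ee i ∈ T)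
      fun i => m * f y i
    have a2 : ∑ i ∈ (Nr g s R0).filter (fun i => y + ee i ∈ T), m * f y i ≤
        live T (Nr g s R0) y * (4 * fl m x) := by
      refine (sum_le_card_nsmul _ _ (4 * fl m x) fun i hi => ?_).trans (by rw [nsmul_eq_mul, live])
      have hi' := hI (mem_filter.1 hi).1
      rw [hin i hi']
      linarith [(hcore i hi').2, (hβ i).2]
    have a3 : ((Nr g s R0).card : ℝ) * (3 / 4 * fl m x) + ∑ i ∈ Nr g s R0, β * hh (Nr g s R) γ y i ≤
        ∑ i ∈ Nr g s R0, m * f y i := by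
      rw [← nsmul_eq_mul, ← sum_const, ← sum_add_distrib]
      refine sum_le_sum fun i hi => ?_
      rw [hin i (hI hi)]
      linarith [(hcore i (hI hi)).1, hξ (fl m x) (by linarith)]
    have a4 := sum_sdiff (f := fun i => β * hh (Nr g s R) γ y i) hI
    have a5 : ∑ i ∈ Nr g s R \ Nr g s R0, β * hh (Nr g s R) γ y i ≤
        ((Fintype.card ι : ℝ) - (Nr g s R0).card) * fl m x := by
      refine (sum_le_card_nsmul _ _ (fl m x) fun i _ => by linarith [(hβ i).2]).trans ?_
      rw [nsmul_eq_mul]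
      refine mul_le_mul_of_nonneg_right ?_ (by linarith)
      have b1 := card_sdiff_add_card_eq_card hI
      have b2 := card_le_univ (Nr g s R)
      have b3 : (((Nr g s R \ Nr g s R0).card + (Nr g s R0).card : ℕ) : ℝ) ≤ Fintype.card ι := by
        exact_mod_cast b1.le.trans b2
      push_cast at b3
      linarith
    have a6 : (15 : ℝ) * Fintype.card ι ≤ 16 * (Nr g s R0).card := by exact_mod_cast h.inner
    have a7 := mul_le_mul_of_nonneg_right a6 (show 0 ≤ fl m x by linarith)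
    have a8 := mul_le_mul_of_nonneg_left hd hmR.le
    have a9 : 0 ≤ (Fintype.card ι : ℝ) * fl m x := mul_nonneg (by positivity) (by linarith)
    rw [mul_sum] at a8 hslk
    refine le_of_mul_le_mul_left ?_ hmR
    rw [Nat.cast_mul, Nat.cast_sub e, ← mul_assoc, show (m : ℝ) * (x / m : ℕ) = fl m x from rfl]
    push_cast
    linarith
  · have hd := ded_ge (T := T) h0 (D := univ.filter fun i => y + ee i ∉ T ∧ Pr m s R x (g i))
      fun i hi => (mem_filter.1 hi).2.1
    have a1 := card_nsmul_le_sum (univ.filter fun i => y + ee i ∉ T ∧ Pr m s R x (g i))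
      (fun i => f y i) (1 / 16) fun i hi => by
        refine le_of_mul_le_mul_left ?_ hmR
        rcases (mem_filter.1 hi).2.2 with ⟨c1, c2 | c2⟩ | ⟨c1, c2⟩
        · have hi' : i ∈ Nr g s R := mem_filter.2 ⟨mem_univ _, c1⟩
          rw [hin i hi', hz c2.1 c2.2]
          linarith [(hcore i hi').1, hξ (fl m x) (by linarith)]
        · have := fl_ge (k := 2) hm c2
          push_cast at this
          linarith [hlo i (mem_filter.2 ⟨mem_univ _, c1⟩)]
        · have hi' : i ∈ (Nr g s R)ᶜ := mem_compl.2 fun c => c1 (mem_filter.1 c).2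
          rw [hout i hi']
          linarith [h.rare.prot i hi' x c2]
    rw [nsmul_eq_mul] at a1
    linarith

end Pool.Agent.MP_96f5a9_co.H58
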